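import Mathlib

set_option autoImplicit false

namespace Pool.Agent.H411Z.WX

open MvPolynomial

section General

variable {F : Type*} [Field F] {A : Type*} [CommRing A] [Algebra F A]

theorem lie_smul' (a G : Derivation F A A) (g : A) :
    ⁅a, g • G⁆ = a g • G + g • ⁅a, G⁆ := by
  ext h
  simp only [Derivation.commutator_apply, Derivation.smul_apply, Derivation.add_apply,
    smul_eq_mul, Derivation.leibniz]
  ring

theorem sub_smul' (D : Derivation F A A) (u v : A) : (u - v) • D = u • D - v • D := by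
  ext h
  simp only [Derivation.smul_apply, Derivation.sub_apply, smul_eq_mul]
  ring

theorem comb1 {D E : Derivation F A A} {u u' v : A} (h : u • D + u' • E = v • (D + E)) :
    (u - v) • D + (u' - v) • E = 0 := by
  ext z
  have := congrArg (fun X : Derivation F A A => X z) h
  simp only [Derivation.smul_apply, Derivation.add_apply, smul_eq_mul,
    Derivation.zero_apply] at this ⊢
  linear_combination this

theorem comb2 {D E E' : Derivation F A A} {a b c d : A} (h : a • D + b • E = 0)
    (h' : c • D + d • E' = 0) : (c * b) • E + (-(a * d)) • E' = 0 := by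
  ext z
  have h1 := congrArg (fun X : Derivation F A A => X z) h
  have h2 := congrArg (fun X : Derivation F A A => X z) h'
  simp only [Derivation.smul_apply, Derivation.add_apply, smul_eq_mul,
    Derivation.zero_apply] at h1 h2 ⊢
  linear_combination c * h1 - a * h2

/-- The basic identity `ad (f₁ D) ad (f₂ D) = ad (f₁ f₂ D) ad D` for constants `f₁, f₂` of `D`. -/
theorem ad_ad (D G : Derivation F A A) (f₁ f₂ : A) (h₁ : D f₁ = 0) (h₂ : D f₂ = 0) :
    ⁅f₁ • D, ⁅f₂ • D, G⁆⁆ = ⁅(f₁ * f₂) • D, ⁅D, G⁆⁆ := by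
  ext h
  simp only [Derivation.commutator_apply, Derivation.smul_apply,
    smul_eq_mul, Derivation.leibniz, map_sub, map_add, h₁, h₂, mul_zero, add_zero, map_zero]
  ring

/-- The symbol of a second order identity between adjoint operators. -/
theorem symbol [IsDomain A] (a b c d E : Derivation F A A) (hE : E ≠ 0)
    (H : ∀ G : Derivation F A A, ⁅a, ⁅b, G⁆⁆ = ⁅c, ⁅d, G⁆⁆) (g h : A) :
    a g * b h + a h * b g = c g * d h + c h * d g := by
  have key : ∀ (a b G : Derivation F A A),
      ⁅a, ⁅b, g • h • G⁆⁆ - g • ⁅a, ⁅b, h • G⁆⁆ - h • ⁅a, ⁅b, g • G⁆⁆ + g • h • ⁅a, ⁅b, G⁆⁆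
        = (a g * b h + a h * b g) • G := by
    intro a b G
    ext z
    simp only [Derivation.commutator_apply, Derivation.smul_apply, Derivation.add_apply,
      Derivation.sub_apply, smul_eq_mul, Derivation.leibniz, map_sub, map_add]
    ring
  have h1 := key a b E
  have h2 := key c d E
  rw [H, H, H, H, h2] at h1
  obtain ⟨z, hz⟩ : ∃ z, E z ≠ 0 := by
    by_contra hcon
    push Not at hcon
    exact hE (by ext z; simpa using hcon z)
  have h3 := congrArg (fun X : Derivation F A A => X z) h1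
  simp only [Derivation.smul_apply, smul_eq_mul] at h3
  exact (mul_right_cancel₀ hz h3).symm

theorem dvd_of_pow [IsDomain A] [UniqueFactorizationMonoid A] (p q : A) (hq : q ≠ 0)
    (H : ∀ k : ℕ, q ^ k ∣ p ^ k * q) : q ∣ p := by
  obtain ⟨q', p', c, hrel, hq', hp'⟩ := UniqueFactorizationMonoid.exists_reduced_factors q hq p
  have hc : c ≠ 0 := by
    rintro rfl
    exact hq (by rw [← hq', zero_mul])
  have h1 : ∀ k : ℕ, q' ^ k ∣ q := by
    intro k
    have h2 := H k
    have h3 : q' ^ k ∣ p' ^ k * q := by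
      have : c ^ k * q' ^ k ∣ c ^ k * (p' ^ k * q) := by
        rw [← mul_pow, hq', ← mul_assoc, ← mul_pow, hp']
        exact h2
      exact (mul_dvd_mul_iff_left (pow_ne_zero k hc)).1 this
    exact (IsRelPrime.pow hrel).dvd_of_dvd_mul_left h3
  have hu : IsUnit q' := by
    by_contra hnu
    obtain ⟨n, hn⟩ := FiniteMultiplicity.of_not_isUnit hnu hq
    exact hn (h1 _)
  rw [← hq', ← hp']
  exact mul_dvd_mul_left c hu.dvd

/-- A Lie automorphism maps `f • D` to a multiple of the image of `D` if `D f = 0`. -/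
theorem exists_mult [IsDomain A] [UniqueFactorizationMonoid A] (h2 : (2 : A) ≠ 0)
    (ψ : Derivation F A A ≃ₗ⁅F⁆ Derivation F A A) (D : Derivation F A A) (f : A)
    (hf : D f = 0) : ∃ u : A, ψ (f • D) = u • ψ D := by
  by_cases hD : D = 0
  · exact ⟨0, by simp [hD]⟩
  have hd : ψ D ≠ 0 := fun h => hD (ψ.injective (by simpa using h))
  have hpow : ∀ k : ℕ, D (f ^ k) = 0 := by
    intro k
    rw [Derivation.leibniz_pow, hf]
    simp
  have S : ∀ (k : ℕ) (g h : A), ψ (f ^ k • D) g * ψ (f • D) h + ψ (f ^ k • D) h * ψ (f • D) g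
      = ψ (f ^ (k + 1) • D) g * ψ D h + ψ (f ^ (k + 1) • D) h * ψ D g := by
    intro k g h
    refine symbol _ _ _ _ (ψ D) hd (fun G => ?_) g h
    obtain ⟨G, rfl⟩ : ∃ G', ψ G' = G := ψ.surjective G
    have := congrArg ψ (ad_ad D G (f ^ k) f (hpow k) hf)
    simpa only [LieEquiv.map_lie, pow_succ] using this
  obtain ⟨z, hz⟩ : ∃ z, ψ D z ≠ 0 := by
    by_contra hcon
    push Not at hcon
    exact hd (by ext z; simpa using hcon z)
  set a := ψ (f • D) with ha
  set d := ψ D with hdd
  have S1 : ∀ (k : ℕ) (g : A), ψ (f ^ k • D) g * a g = ψ (f ^ (k + 1) • D) g * d g := by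
    intro k g
    have := S k g g
    apply mul_left_cancel₀ h2
    linear_combination this
  have hprop : ∀ g : A, a g * d z = a z * d g := by
    intro g
    set c := ψ (f ^ (1 + 1) • D) with hc
    have e1 : a g * a g = c g * d g := by simpa using S1 1 g
    have e2 : a z * a z = c z * d z := by simpa using S1 1 z
    have e3 : a g * a z + a z * a g = c g * d z + c z * d g := by simpa using S 1 g z
    have e4 : (c g * d z - c z * d g) ^ 2 = 0 := by
      have : (c g * d z + c z * d g) ^ 2 = 4 * (c g * d g) * (c z * d z) := by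
        rw [← e1, ← e2, ← e3]; ring
      linear_combination this
    have e5 : c g * d z = c z * d g := sub_eq_zero.1 (pow_eq_zero_iff (two_ne_zero) |>.1 e4)
    have e6 : (a g * d z - a z * d g) ^ 2 = 0 := by
      linear_combination (d z) ^ 2 * e1 + (d g) ^ 2 * e2 - (d g * d z) * e3
    exact sub_eq_zero.1 (pow_eq_zero_iff (two_ne_zero) |>.1 e6)
  have hdvd : d z ∣ a z := by
    apply dvd_of_pow _ _ hz
    intro k
    refine ⟨ψ (f ^ k • D) z, ?_⟩
    induction k with
    | zero => simp [hdd]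
    | succ k ih =>
      have := S1 k z
      linear_combination (a z) * ih + (d z) ^ k * this
  obtain ⟨u, hu⟩ := hdvd
  refine ⟨u, ?_⟩
  ext g
  have := hprop g
  rw [hu] at this
  apply mul_right_cancel₀ hz
  simp only [Derivation.smul_apply, smul_eq_mul]
  linear_combination this

end General

section Poly

variable {σ : Type*} [Infinite σ] {F : Type*} [Field F]

theorem exists_fresh (s : Finset σ) (f : MvPolynomial σ F) :
    ∃ j, j ∉ s ∧ pderiv j f = 0 := by
  classical
  obtain ⟨j, hj⟩ := Infinite.exists_notMem_finset (s ∪ f.vars)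
  rw [Finset.mem_union, not_or] at hj
  exact ⟨j, hj.1, pderiv_eq_zero_of_notMem_vars hj.2⟩

theorem exists_fresh3 (f g h : MvPolynomial σ F) :
    ∃ j, pderiv j f = 0 ∧ pderiv j g = 0 ∧ pderiv j h = 0 := by
  classical
  obtain ⟨j, hj⟩ := Infinite.exists_notMem_finset (f.vars ∪ g.vars ∪ h.vars)
  simp only [Finset.mem_union, not_or] at hj
  exact ⟨j, pderiv_eq_zero_of_notMem_vars hj.1.1, pderiv_eq_zero_of_notMem_vars hj.1.2,
    pderiv_eq_zero_of_notMem_vars hj.2⟩

omit [Infinite σ] in
theorem pderiv_ne_zero (j : σ) :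
    (pderiv j : Derivation F (MvPolynomial σ F) (MvPolynomial σ F)) ≠ 0 := by
  intro h
  have := congrArg (fun D : Derivation F (MvPolynomial σ F) (MvPolynomial σ F) => D (X j)) h
  simp at this

omit [Infinite σ] in
theorem pderiv_lie (j k : σ) :
    ⁅(pderiv j : Derivation F (MvPolynomial σ F) (MvPolynomial σ F)),
      (pderiv k : Derivation F (MvPolynomial σ F) (MvPolynomial σ F))⁆ = 0 := by
  classical
  apply MvPolynomial.derivation_ext
  intro i
  simp only [Derivation.commutator_apply, pderiv_X, Derivation.zero_apply, Pi.single_apply]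
  split_ifs <;> simp

omit [Infinite σ] in
theorem smul_cancel {A : Type*} [CommRing A] [Algebra F A] [IsDomain A]
    {D : Derivation F A A} (hD : D ≠ 0) {u : A} (h : u • D = 0) : u = 0 := by
  by_contra hu
  apply hD
  ext z
  have := congrArg (fun X : Derivation F A A => X z) h
  simp only [Derivation.smul_apply, smul_eq_mul, Derivation.zero_apply] at this
  simpa using (mul_eq_zero.1 this).resolve_left hu

variable (h2 : (2 : F) ≠ 0)
  (ψ : Derivation F (MvPolynomial σ F) (MvPolynomial σ F) ≃ₗ⁅F⁆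
    Derivation F (MvPolynomial σ F) (MvPolynomial σ F))

omit [Infinite σ] in
include h2 in
theorem two_ne : (2 : MvPolynomial σ F) ≠ 0 := by
  intro h
  apply h2
  have : (C (2 : F) : MvPolynomial σ F) = 0 := by rw [← h]; exact map_ofNat C 2
  exact (C_eq_zero.1 this)

omit [Infinite σ] in
theorem delta_ne (j : σ) : ψ (pderiv j) ≠ 0 :=
  fun h => pderiv_ne_zero j (ψ.injective (by simpa using h))

omit [Infinite σ] in
include h2 in
theorem delta_indep {j k : σ} (hjk : j ≠ k) {α β : MvPolynomial σ F}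
    (h : α • ψ (pderiv j) + β • ψ (pderiv k) = 0) : α = 0 ∧ β = 0 := by
  classical
  obtain ⟨w, hw⟩ := exists_mult (two_ne h2) ψ (pderiv k) (X j) (pderiv_X_of_ne hjk)
  have hjk0 : ⁅ψ (pderiv j), ψ (pderiv k)⁆ = 0 := by
    rw [← LieEquiv.map_lie, pderiv_lie]; simp
  have e1 : ψ (pderiv j) w = 1 := by
    have := congrArg ψ (lie_smul' (pderiv j) (pderiv k) (X j : MvPolynomial σ F))
    rw [LieEquiv.map_lie, hw, lie_smul', hjk0, pderiv_lie, pderiv_X_self] at this
    simp only [smul_zero, add_zero, one_smul] at this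
    have h3 : (ψ (pderiv j) w - 1) • ψ (pderiv k) = 0 := by rw [sub_smul', this]; simp
    exact sub_eq_zero.1 (smul_cancel (delta_ne ψ k) h3)
  have e2 : ψ (pderiv k) w = 0 := by
    have := congrArg ψ (lie_smul' (pderiv k) (pderiv k) (X j : MvPolynomial σ F))
    rw [LieEquiv.map_lie, hw, lie_smul', lie_self, lie_self, pderiv_X_of_ne hjk] at this
    simp only [smul_zero, add_zero, zero_smul, map_zero] at this
    exact smul_cancel (delta_ne ψ k) this
  have e3 := congrArg (fun X : Derivation F (MvPolynomial σ F) (MvPolynomial σ F) => X w) h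
  simp only [Derivation.add_apply, Derivation.smul_apply, e1, e2, smul_eq_mul, mul_one, mul_zero,
    add_zero, Derivation.zero_apply] at e3
  refine ⟨e3, ?_⟩
  rw [e3, zero_smul, zero_add] at h
  exact smul_cancel (delta_ne ψ k) h

include h2 in
theorem exists_phi (f : MvPolynomial σ F) :
    ∃ u : MvPolynomial σ F, ∀ E : Derivation F (MvPolynomial σ F) (MvPolynomial σ F),
      E f = 0 → ψ (f • E) = u • ψ E := by
  classical
  obtain ⟨k, -, hk⟩ := exists_fresh ∅ f
  obtain ⟨l, hl', hl⟩ := exists_fresh {k} f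
  have hkl : k ≠ l := fun h => hl' (by simp [h])
  obtain ⟨u, hu⟩ := exists_mult (two_ne h2) ψ (pderiv k) f hk
  obtain ⟨u', hu'⟩ := exists_mult (two_ne h2) ψ (pderiv l) f hl
  obtain ⟨v, hv⟩ := exists_mult (two_ne h2) ψ (pderiv k + pderiv l) f (by simp [hk, hl])
  have huu : u' = u := by
    rw [smul_add, map_add, map_add, hu, hu'] at hv
    have : (u - v) • ψ (pderiv k) + (u' - v) • ψ (pderiv l) = 0 := comb1 hv
    obtain ⟨a1, a2⟩ := delta_indep h2 ψ hkl this
    rw [sub_eq_zero.1 a1, sub_eq_zero.1 a2]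
  subst huu
  refine ⟨u', fun E hE => ?_⟩
  obtain ⟨w, hw⟩ := exists_mult (two_ne h2) ψ E f hE
  obtain ⟨wk, hwk⟩ := exists_mult (two_ne h2) ψ (E + pderiv k) f (by simp [hk, hE])
  obtain ⟨wl, hwl⟩ := exists_mult (two_ne h2) ψ (E + pderiv l) f (by simp [hl, hE])
  rw [smul_add, map_add, map_add, hu, hw] at hwk
  rw [smul_add, map_add, map_add, hu', hw] at hwl
  have ek : (w - wk) • ψ E + (u' - wk) • ψ (pderiv k) = 0 := comb1 hwk
  have el : (w - wl) • ψ E + (u' - wl) • ψ (pderiv l) = 0 := comb1 hwl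
  rw [hw]
  by_cases c1 : u' = wk
  · rw [c1, sub_self, zero_smul, add_zero, sub_smul'] at ek
    rw [c1]; exact sub_eq_zero.1 ek
  by_cases c2 : u' = wl
  · rw [c2, sub_self, zero_smul, add_zero, sub_smul'] at el
    rw [c2]; exact sub_eq_zero.1 el
  exfalso
  have e : ((w - wl) * (u' - wk)) • ψ (pderiv k) + (-((w - wk) * (u' - wl))) • ψ (pderiv l)
      = 0 := comb2 ek el
  obtain ⟨a1, -⟩ := delta_indep h2 ψ hkl e
  have a3 : w - wl = 0 := (mul_eq_zero.1 a1).resolve_right (sub_ne_zero.2 c1)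
  rw [a3, zero_smul, zero_add] at el
  exact c2 (sub_eq_zero.1 (smul_cancel (delta_ne ψ l) el))

include h2 in
theorem exists_algHom :
    ∃ φ : MvPolynomial σ F →ₐ[F] MvPolynomial σ F,
      ∀ (G : Derivation F (MvPolynomial σ F) (MvPolynomial σ F)) (f : MvPolynomial σ F),
        ψ G (φ f) = φ (G f) := by
  choose φ hφ using exists_phi h2 ψ
  have uniq : ∀ (f u : MvPolynomial σ F) (j : σ), pderiv j f = 0 →
      ψ (f • pderiv j) = u • ψ (pderiv j) → φ f = u := by
    intro f u j hj h
    rw [hφ f _ hj] at h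
    have : (φ f - u) • ψ (pderiv j) = 0 := by rw [sub_smul', h, sub_self]
    exact sub_eq_zero.1 (smul_cancel (delta_ne ψ j) this)
  have hadd : ∀ f g, φ (f + g) = φ f + φ g := by
    intro f g
    obtain ⟨j, h1, h3, -⟩ := exists_fresh3 f g g
    apply uniq _ _ j (by simp [h1, h3])
    rw [add_smul, map_add, hφ f _ h1, hφ g _ h3, add_smul]
  have hmul : ∀ f g, φ (f * g) = φ f * φ g := by
    intro f g
    obtain ⟨j, h1, h3, -⟩ := exists_fresh3 f g g
    apply uniq _ _ j (by simp [h1, h3])
    rw [mul_smul, hφ f _ (by simp [h1]), hφ g _ h3, mul_smul]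
  have hC : ∀ c : F, φ (algebraMap F _ c) = algebraMap F _ c := by
    intro c
    obtain ⟨j, h1, -, -⟩ := exists_fresh3 (algebraMap F (MvPolynomial σ F) c) 0 0
    apply uniq _ _ j h1
    rw [algebraMap_smul, algebraMap_smul, map_smul]
  have h0 : φ 0 = 0 := by simpa using hC 0
  have h1 : φ 1 = 1 := by simpa using hC 1
  refine ⟨{ toFun := φ, map_one' := h1, map_mul' := hmul, map_zero' := h0, map_add' := hadd,
            commutes' := hC }, fun G f => ?_⟩
  change ψ G (φ f) = φ (G f)
  obtain ⟨j, j1, j2, -⟩ := exists_fresh3 f (G f) 0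
  have e := congrArg ψ (lie_smul' G (pderiv j) f)
  have j3 : ⁅G, (pderiv j : Derivation F (MvPolynomial σ F) (MvPolynomial σ F))⁆ f = 0 := by
    rw [Derivation.commutator_apply, j1, j2]; simp
  rw [LieEquiv.map_lie, map_add, hφ f _ j1, hφ _ _ j2, hφ f _ j3, lie_smul',
    LieEquiv.map_lie] at e
  have e' : (ψ G (φ f) - φ (G f)) • ψ (pderiv j) = 0 := by
    rw [sub_smul', sub_eq_zero]; exact add_right_cancel e
  exact sub_eq_zero.1 (smul_cancel (delta_ne ψ j) e')

omit [Infinite σ] in
theorem eq_id_of_comm (χ : MvPolynomial σ F →ₐ[F] MvPolynomial σ F)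
    (h : ∀ (G : Derivation F (MvPolynomial σ F) (MvPolynomial σ F)) (f : MvPolynomial σ F),
      G (χ f) = χ (G f)) : χ = AlgHom.id F _ := by
  classical
  apply MvPolynomial.algHom_ext
  intro i
  have e1 := h (pderiv i) (X i)
  have e2 := h ((X i : MvPolynomial σ F) • pderiv i) (X i)
  simp only [pderiv_X_self, map_one] at e1
  simp only [Derivation.smul_apply, e1, pderiv_X_self, smul_eq_mul, mul_one] at e2
  simpa using e2.symm

include h2 in
theorem main :
    ∃ φ : MvPolynomial σ F ≃ₐ[F] MvPolynomial σ F,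
      ∀ (D : Derivation F (MvPolynomial σ F) (MvPolynomial σ F)) (g : MvPolynomial σ F),
        ψ D g = φ (D (φ.symm g)) := by
  obtain ⟨φ, hφ⟩ := exists_algHom h2 ψ
  obtain ⟨φ', hφ'⟩ := exists_algHom h2 ψ.symm
  have e1 : φ.comp φ' = AlgHom.id F _ := by
    apply eq_id_of_comm
    intro G f
    simp only [AlgHom.comp_apply]
    rw [← hφ' G f, ← hφ, LieEquiv.apply_symm_apply]
  have e2 : φ'.comp φ = AlgHom.id F _ := by
    apply eq_id_of_comm
    intro G f
    simp only [AlgHom.comp_apply]
    rw [← hφ G f, ← hφ', LieEquiv.symm_apply_apply]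
  refine ⟨AlgEquiv.ofAlgHom φ φ' e1 e2, fun D g => ?_⟩
  change ψ D g = φ (D (φ' g))
  rw [← hφ]
  congr 1
  exact (congrArg (fun χ : MvPolynomial σ F →ₐ[F] MvPolynomial σ F => χ g) e1).symm

end Poly

end Pool.Agent.H411Z.WX
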